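import Pool.Agent.Helper58.EM.StLe
import Pool.Agent.Helper42.EM.Glob
import Pool.Agent.Helper79.ANG.QF5

/-! # The exponents of a state sum as weak angle structures -/

set_option autoImplicit false

namespace Pool.Agent.Helper73.EM
open Finset Pool.Agent.ANG Pool.Agent.W2L
open _root_.ANG (corn Bl kd crn cor AngSet nlab Same Ext)
open Pool.Agent.Helper27.EM (aa Ac mlab mlab_le vlo vup)
open Pool.Agent.Helper67.EM (ag)
open Pool.Agent.Helper58.EM (PS vl mem_expo rg inn)
open Pool.Agent.Helper42.EM (WAS vpat)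
open Pool.Agent.Helper5.TV (lob)
open scoped Real

variable {w : ℕ → Mv} {N : ℕ}

/-- the angles of the exponents `p` -/
noncomputable def aw (n : ℕ) (p : Fin N × Fin 3 → ℕ) (t : ℕ) (c : Fin 3) : ℝ :=
  if h : t < N then ag n (p (⟨t, h⟩, c)) else 0

/-- the small angle at the vertex `t` -/
noncomputable def muw (w : ℕ → Mv) (n : ℕ) (lab : ℕ → ℕ) (t : ℕ) : ℝ :=
  min (ag n (mlab w n lab t)) (π - ag n (mlab w n lab t))

/-- is `t` an upper end? -/
noncomputable def sw (w : ℕ → Mv) (n : ℕ) (lab : ℕ → ℕ) (t : ℕ) : Bool :=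
  decide (π / 2 < ag n (mlab w n lab t))

theorem ag_nonneg {n : ℕ} (hn : 2 ≤ n) {k : ℝ} (hk : 0 ≤ k) : 0 ≤ ag n k := by
  have h : (2:ℝ) ≤ n := by exact_mod_cast hn
  unfold ag
  have := Real.pi_pos
  have h2 : (0:ℝ) < (n:ℝ) - 1 := by linarith
  positivity

theorem ag_add (n : ℕ) (x y : ℝ) : ag n (x + y) = ag n x + ag n y := by
  unfold ag; ring

theorem ag_zero (n : ℕ) : ag n 0 = 0 := by unfold ag; simp

theorem ag_sum {ι : Type} (n : ℕ) (s : Finset ι) (f : ι → ℝ) : ag n (∑ i ∈ s, f i) = ∑ i ∈ s, ag n (f i) := by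
  classical
  induction s using Finset.induction_on with
  | empty => simp [ag_zero]
  | insert a s ha ih => rw [Finset.sum_insert ha, Finset.sum_insert ha, ag_add, ih]

theorem ag_top {n : ℕ} (hn : 2 ≤ n) : ag n ((n:ℝ) - 1) = π := by
  have h : (2:ℝ) ≤ n := by exact_mod_cast hn
  unfold ag
  have : (n:ℝ) - 1 ≠ 0 := by linarith
  field_simp

theorem ag_compl {n : ℕ} (hn : 2 ≤ n) {k : ℕ} (hk : k ≤ n - 1) :
    ag n ((n - 1 - k : ℕ) : ℝ) = π - ag n k := by
  rw [Nat.cast_sub hk, Nat.cast_sub (by omega), ← ag_top hn]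
  unfold ag
  push_cast
  ring

theorem ag_le_pi {n : ℕ} (hn : 2 ≤ n) {k : ℕ} (hk : k ≤ n - 1) : ag n k ≤ π := by
  have h1 := ag_compl hn hk
  have h2 := ag_nonneg hn (k := ((n - 1 - k : ℕ) : ℝ)) (by positivity)
  linarith

theorem mlab_compl (w : ℕ → Mv) {n : ℕ} {lab : ℕ → ℕ} (hl : ∀ o, lab o ≤ n - 1) (t : ℕ) :
    mlab w n (fun x => n - 1 - lab x) t = n - 1 - mlab w n lab t := by
  have := hl (pob w t)
  simp only [mlab]
  split_ifs <;> omega

theorem muw_nonneg {n : ℕ} (hn : 2 ≤ n) {lab : ℕ → ℕ} (hl : ∀ o, lab o ≤ n - 1) (t : ℕ) : 0 ≤ muw w n lab t := by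
  have h1 := ag_nonneg hn (k := (mlab w n lab t : ℝ)) (by positivity)
  have h2 := ag_le_pi hn (mlab_le w hl t)
  exact le_min h1 (by linarith)

theorem muw_le (n : ℕ) (lab : ℕ → ℕ) (t : ℕ) : muw w n lab t ≤ π / 2 := by
  unfold muw
  rcases le_total (ag n (mlab w n lab t)) (π / 2) with h | h
  · exact (min_le_left _ _).trans h
  · exact (min_le_right _ _).trans (by linarith)

theorem muw_compl {n : ℕ} (hn : 2 ≤ n) {lab : ℕ → ℕ} (hl : ∀ o, lab o ≤ n - 1) (t : ℕ) :
    muw w n (fun x => n - 1 - lab x) t = muw w n lab t := by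
  unfold muw
  rw [mlab_compl w hl t, ag_compl hn (mlab_le w hl t), min_comm]
  congr 1
  ring

/-- the sum of the angles at a vertex -/
theorem sw_sum {n : ℕ} (lab : ℕ → ℕ) (t : ℕ) :
    (if sw w n lab t then π - muw w n lab t else muw w n lab t) = ag n (mlab w n lab t) := by
  unfold sw muw
  by_cases h : π / 2 < ag n (mlab w n lab t)
  · rw [if_pos (by simpa using h), min_eq_right (by linarith)]; ring
  · rw [if_neg (by simpa using h), min_eq_left (by linarith)]

theorem sw_sum' {n : ℕ} (hn : 2 ≤ n) {lab : ℕ → ℕ} (hl : ∀ o, lab o ≤ n - 1) (t : ℕ) :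
    (if sw w n lab t then muw w n lab t else π - muw w n lab t) =
      ag n (mlab w n (fun x => n - 1 - lab x) t) := by
  rw [mlab_compl w hl t, ag_compl hn (mlab_le w hl t), ← sw_sum]
  split_ifs <;> ring

theorem aw_was (hw : Valid w N) {n : ℕ} (hn : 2 ≤ n) {m : ℕ → ℕ} {p : Fin N × Fin 3 → ℕ} (hp : p ∈ PS hw n m) :
    WAS w N (fun t => ag n (m t)) (aw n p) where
  zero t ht c h := by
    have h1 := (Finset.mem_filter.1 hp).2 (rg hw (⟨t, ht⟩, c))
    rw [if_neg (by
      unfold inn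
      rw [Finset.mem_filter]
      rintro ⟨-, h2, -⟩
      change 2 ≤ reg w t c at h2
      omega)] at h1
    have h2 := (Finset.sum_eq_zero_iff.1 h1) (⟨t, ht⟩, c) (by simp)
    unfold aw
    rw [dif_pos ht, h2, Nat.cast_zero, ag_zero]
  nonneg t ht c := by
    unfold aw
    rw [dif_pos ht]
    exact ag_nonneg hn (by positivity)
  vert t ht := by
    have h1 := (mem_expo _ _).1 (Finset.mem_filter.1 hp).1 ⟨t, ht⟩
    rw [Fin.sum_univ_three] at h1
    simp only [aw, dif_pos ht]
    rw [← ag_add, ← ag_add, ← h1]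
    push_cast
    rfl
  regn g hg hex := by
    obtain ⟨t0, ht0, c0, h0⟩ := hex
    have hb := reg_born hw ht0 c0 (by omega)
    rw [h0] at hb
    have hgN : g < N + 2 := by omega
    have h1 := (Finset.mem_filter.1 hp).2 ⟨g, hgN⟩
    rw [if_pos (by
      unfold inn
      rw [Finset.mem_filter]
      exact ⟨Finset.mem_univ _, hg, hb.2⟩)] at h1
    have h2 : ∑ t ∈ range N, ∑ c, (if reg w t c = g then aw n p t c else 0) =
        ∑ x : Fin N × Fin 3, (if reg w x.1 x.2 = g then ag n (p x) else 0) := by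
      rw [Fintype.sum_prod_type, Finset.sum_range]
      refine Finset.sum_congr rfl fun t _ => Finset.sum_congr rfl fun c _ => ?_
      simp only [aw, dif_pos t.2, Fin.eta]
    rw [h2, ← ag_top hn, ← Finset.sum_filter, ← ag_sum]
    congr 1
    have h3 : (n:ℝ) - 1 = ((n - 1 : ℕ) : ℝ) := by
      rw [Nat.cast_sub (by omega)]; simp
    rw [h3, ← h1]
    push_cast
    refine Finset.sum_congr ?_ fun _ _ => rfl
    ext x
    simp only [Finset.mem_filter, Finset.mem_univ, true_and, rg, Fin.mk.injEq]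

theorem was_of_PS (hw : Valid w N) {n : ℕ} (hn : 2 ≤ n) {lab : ℕ → ℕ} {p : Fin N × Fin 3 → ℕ}
    (hp : p ∈ PS hw n (mlab w n lab)) :
    WAS w N (fun t => if sw w n lab t then π - muw w n lab t else muw w n lab t) (aw n p) := by
  have h := aw_was hw hn hp
  have e : (fun t => if sw w n lab t then π - muw w n lab t else muw w n lab t) =
      fun t => ag n (mlab w n lab t) := funext fun t => sw_sum lab t
  rw [e]
  exact h

theorem was_of_PS' (hw : Valid w N) {n : ℕ} (hn : 2 ≤ n) {lab : ℕ → ℕ} (hl : ∀ o, lab o ≤ n - 1)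
    {p : Fin N × Fin 3 → ℕ} (hp : p ∈ PS hw n (mlab w n (fun x => n - 1 - lab x))) :
    WAS w N (fun t => if sw w n lab t then muw w n lab t else π - muw w n lab t) (aw n p) := by
  have h := aw_was hw hn hp
  have e : (fun t => if sw w n lab t then muw w n lab t else π - muw w n lab t) =
      fun t => ag n (mlab w n (fun x => n - 1 - lab x) t) := funext fun t => sw_sum' hn hl t
  rw [e]
  exact h

/-- the rate of a vertex in terms of the small angle -/
theorem vlo_vpat (n : ℕ) (lab : ℕ → ℕ) (t : ℕ) (q : Fin 3) (a : Fin 3 → ℝ) :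
    vlo (ag n (mlab w n lab t)) (a (lc q)) (a (rc q)) (a (oc q)) =
      vpat (sw w n lab t) (muw w n lab t) q a := by
  unfold vpat sw muw
  by_cases h : π / 2 < ag n (mlab w n lab t)
  · rw [if_pos (by simpa using h), min_eq_right (by linarith)]
    unfold vlo vup
    rw [sub_sub_cancel]
  · rw [if_neg (by simpa using h), min_eq_left (by linarith)]

theorem vlo_vpat' {n : ℕ} (hn : 2 ≤ n) {lab : ℕ → ℕ} (hl : ∀ o, lab o ≤ n - 1) (t : ℕ) (q : Fin 3) (a : Fin 3 → ℝ) :
    vlo (ag n (mlab w n (fun x => n - 1 - lab x) t)) (a (lc q)) (a (rc q)) (a (oc q)) =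
      vpat (!sw w n lab t) (muw w n lab t) q a := by
  rw [← sw_sum' hn hl t]
  unfold vpat
  cases sw w n lab t
  · simp only [Bool.false_eq_true, if_false, Bool.not_false, if_true]
    unfold vlo vup
    rw [sub_sub_cancel]
  · simp only [if_true, Bool.not_true, Bool.false_eq_true, if_false]

theorem sum_vl (n : ℕ) (lab : ℕ → ℕ) (p : Fin N × Fin 3 → ℕ) :
    ∑ t, vl w n (mlab w n lab) p t =
      ∑ t ∈ range N, vpat (sw w n lab t) (muw w n lab t) (w t).p (aw n p t) := by
  rw [Finset.sum_range]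
  refine Finset.sum_congr rfl fun t _ => ?_
  rw [← vlo_vpat]
  simp only [vl, aw, dif_pos t.2, Fin.eta]

theorem sum_vl' {n : ℕ} (hn : 2 ≤ n) {lab : ℕ → ℕ} (hl : ∀ o, lab o ≤ n - 1) (p : Fin N × Fin 3 → ℕ) :
    ∑ t, vl w n (mlab w n (fun x => n - 1 - lab x)) p t =
      ∑ t ∈ range N, vpat (!sw w n lab t) (muw w n lab t) (w t).p (aw n p t) := by
  rw [Finset.sum_range]
  refine Finset.sum_congr rfl fun t _ => ?_
  rw [← vlo_vpat' hn hl]
  simp only [vl, aw, dif_pos t.2, Fin.eta]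

/-- a far node gives a gap at both ends -/
theorem sin_muw_le {β : Type} {b : ℕ → β} (hw : Valid w N) {n : ℕ} (hn : 2 ≤ n) {lab : ℕ → ℕ}
    (hl : ∀ o, lab o ≤ n - 1) {r : ℝ} (hr : 0 ≤ r) (e : Bl (toLt b w N))
    (h : r ≤ |_root_.ANG.QF.nd n (lab (pob w (bt w N e)))|) (s : Bool) :
    Real.sin (muw w n lab (vx w N e s)) ≤ Real.cos r := by
  set k := lab (pob w (bt w N e)) with hk
  have hkl : k ≤ n - 1 := hl _
  have hn' : (2:ℝ) ≤ n := by exact_mod_cast hn
  obtain ⟨h1, h2, h3, h4⟩ := te_pob hw (bt_spec hw e).1 (bt_spec hw e).2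
  have e0 : Real.sin (muw w n lab (vx w N e s)) = Real.sin (ag n k) := by
    have e2 : ∀ x : ℝ, Real.sin (min x (π - x)) = Real.sin x := by
      intro x
      rcases min_choice x (π - x) with h | h
      · rw [h]
      · rw [h, Real.sin_pi_sub]
    unfold muw
    rw [e2]
    cases s
    · have h5 : up w (vx w N e false) = true := (bt_spec hw e).2
      rw [mlab, if_pos h5]; rfl
    · have h5 : up w (vx w N e true) = false := h4
      have h6 : pob w (vx w N e true) = pob w (bt w N e) := h3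
      rw [mlab, h5, h6]
      simp only [Bool.false_eq_true, if_false]
      rw [← hk, ag_compl hn hkl, Real.sin_pi_sub]
  rw [e0, ← Real.cos_pi_div_two_sub, ← Real.cos_abs (π / 2 - ag n k)]
  have g1 := ag_nonneg hn (k := (k : ℝ)) (by positivity)
  have g2 := ag_le_pi hn hkl
  have hp := Real.pi_pos
  refine Real.cos_le_cos_of_nonneg_of_le_pi hr ?_ ?_
  · rw [abs_le]; constructor <;> linarith
  · refine h.trans ?_
    have e3 : _root_.ANG.QF.nd n k = ((n:ℝ) - 1) / n * (π / 2 - ag n k) := by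
      unfold _root_.ANG.QF.nd _root_.ANG.h79.th ag
      have a1 : (n:ℝ) ≠ 0 := by linarith
      have a2 : (n:ℝ) - 1 ≠ 0 := by linarith
      field_simp
      ring
    rw [e3, abs_mul]
    have a3 : |((n:ℝ) - 1) / n| ≤ 1 := by
      rw [abs_of_nonneg (by apply div_nonneg <;> linarith), div_le_one (by linarith)]
      linarith
    calc |((n:ℝ) - 1) / n| * |π / 2 - ag n k| ≤ 1 * |π / 2 - ag n k| := by gcongr
      _ = _ := one_mul _

end Pool.Agent.Helper73.EM
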